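import Pool.Agent.N538.TwoNum.Prod

/-! The two-number of the set of pure tensors `u ⊗ (x ⊗ y)` is at most eight. -/

set_option autoImplicit false
set_option linter.unusedSectionVars false
set_option linter.unusedSimpArgs false

open Topology Metric
open scoped TensorProduct RealInnerProductSpace Quaternion

namespace Pool.Agent.N538.TwoNum

section par

variable {V : Type} [NormedAddCommGroup V] [InnerProductSpace ℝ V]

/-- two vectors agree up to a sign -/
def par (a b : V) : Prop := b = a ∨ b = -a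

theorem par.symm {a b : V} (h : par a b) : par b a := by
  rcases h with h | h
  · left; rw [h]
  · right; rw [h, neg_neg]

theorem par.trans {a b c : V} (h : par a b) (h' : par b c) : par a c := by
  rcases h with rfl | rfl
  · exact h'
  · rcases h' with rfl | rfl
    · right; rfl
    · left; rw [neg_neg]

theorem not_perp_of_par {a b : V} (ha : ‖a‖ = 1) (h : par a b) : ⟪a, b⟫ ≠ 0 := by
  rcases h with rfl | rfl
  · rw [real_inner_self_eq_norm_sq, ha]; norm_num
  · rw [inner_neg_right, real_inner_self_eq_norm_sq, ha]; norm_num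

variable [FiniteDimensional ℝ V]

theorem par_of_rho {a b : V} (ha : ‖a‖ = 1) (hb : ‖b‖ = 1) (h : rho a b = b) : par a b := by
  rw [rho_apply ha] at h
  have h1 : b = ⟪a, b⟫ • a := by
    have h2 : (2 : ℝ) • b = (2 : ℝ) • (⟪a, b⟫ • a) := by
      rw [two_smul, smul_smul]
      nth_rw 1 [← h]
      abel
    exact smul_right_injective V (two_ne_zero' ℝ) h2
  have h3 : |⟪a, b⟫| = 1 := by
    have := congrArg norm h1
    rw [norm_smul, ha, hb, mul_one, Real.norm_eq_abs] at this
    exact this.symm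
  rcases (abs_eq zero_le_one).1 h3 with h4 | h4
  · left; rw [h4, one_smul] at h1; exact h1
  · right; rw [h4, neg_one_smul] at h1; exact h1

theorem perp_of_rho {a b : V} (ha : ‖a‖ = 1) (h : rho a b = -b) : ⟪a, b⟫ = 0 := by
  rw [rho_apply ha] at h
  have h1 : (2 * ⟪a, b⟫) • a = 0 := by
    have : (2 * ⟪a, b⟫) • a = -b + b := by rw [← h]; abel
    rw [this]; abel
  have ha0 : a ≠ 0 := by
    rintro rfl
    simp at ha
  rcases smul_eq_zero.1 h1 with h2 | h2
  · linarith
  · exact absurd h2 ha0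

/-- pairwise orthogonal unit vectors are at most as many as the dimension -/
theorem card_le_of_perp {n : ℕ} (v : Fin n → V) (h1 : ∀ i, ‖v i‖ = 1)
    (h : ∀ i j, i ≠ j → ⟪v i, v j⟫ = 0) : n ≤ Module.finrank ℝ V := by
  have h2 : Orthonormal ℝ v := ⟨h1, fun i j hij => h i j hij⟩
  simpa using h2.linearIndependent.fintype_card_le_finrank

end par

section five

variable {U X Y : Type} [NormedAddCommGroup U] [InnerProductSpace ℝ U] [FiniteDimensional ℝ U]
  [NormedAddCommGroup X] [InnerProductSpace ℝ X] [FiniteDimensional ℝ X]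
  [NormedAddCommGroup Y] [InnerProductSpace ℝ Y] [FiniteDimensional ℝ Y]

/-- the relation between the factors of two non proportional points of an antipodal set -/
def Rel (u u' : U) (x x' : X) (y y' : Y) : Prop :=
  (par u u' ∧ ⟪x, x'⟫ = 0 ∧ ⟪y, y'⟫ = 0) ∨ (⟪u, u'⟫ = 0 ∧ ⟪x, x'⟫ = 0 ∧ par y y') ∨
    (⟪u, u'⟫ = 0 ∧ par x x' ∧ ⟪y, y'⟫ = 0)

theorem Rel.of_par {u u' : U} {x x' : X} {y y' : Y} (hu : ‖u‖ = 1) (h : Rel u u' x x' y y')
    (hp : par u u') : ⟪x, x'⟫ = 0 ∧ ⟪y, y'⟫ = 0 := by
  rcases h with h | h | h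
  · exact h.2
  · exact absurd h.1 (not_perp_of_par hu hp)
  · exact absurd h.1 (not_perp_of_par hu hp)

variable {u : Fin 5 → U} {x : Fin 5 → X} {y : Fin 5 → Y}

theorem five_aux (hu : ∀ i, ‖u i‖ = 1) (hx : ∀ i, ‖x i‖ = 1) (hy : ∀ i, ‖y i‖ = 1)
    (h : ∀ i j, i ≠ j → Rel (u i) (u j) (x i) (x j) (y i) (y j))
    {i j k l : Fin 5} (_ : i ≠ j) (hik : i ≠ k) (hil : i ≠ l) (hjk : j ≠ k) (hjl : j ≠ l)
    (hkl : k ≠ l) (hu0 : ⟪u i, u j⟫ = 0) (hx0 : par (x i) (x j)) (hk : par (u i) (u k))
    (hl : par (u i) (u l)) : False := by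
  have h1 := (h i k hik).of_par (hu i) hk
  have h2 := (h i l hil).of_par (hu i) hl
  have h3 := (h k l hkl).of_par (hu k) (hk.symm.trans hl)
  -- `j` is perpendicular to all of them
  have key : ∀ m, i ≠ m → j ≠ m → par (u i) (u m) → ⟪x i, x m⟫ = 0 → par (y j) (y m) := by
    intro m him hjm hm hxm
    rcases h j m hjm with h4 | h4 | h4
    · exfalso
      have : par (u i) (u j) := hm.trans h4.1.symm
      exact not_perp_of_par (hu i) this hu0
    · exact h4.2.2
    · exfalso
      have : par (x i) (x m) := hx0.trans h4.2.1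
      exact not_perp_of_par (hx i) this hxm
  have h5 := key k hik hjk hk h1.1
  have h6 := key l hil hjl hl h2.1
  exact not_perp_of_par (hy k) (h5.symm.trans h6) h3.2

theorem no_five (hU : Module.finrank ℝ U = 2) (hX : Module.finrank ℝ X = 4)
    (hu : ∀ i, ‖u i‖ = 1) (hx : ∀ i, ‖x i‖ = 1) (hy : ∀ i, ‖y i‖ = 1)
    (h : ∀ i j, i ≠ j → Rel (u i) (u j) (x i) (x j) (y i) (y j)) : False := by
  by_cases hall : ∀ i j, i ≠ j → ⟪x i, x j⟫ = 0
  · have := card_le_of_perp x hx hall
    omega
  push Not at hall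
  obtain ⟨i, j, hij, hne⟩ := hall
  have hRij := h i j hij
  have hu0 : ⟪u i, u j⟫ = 0 := by
    rcases hRij with h1 | h1 | h1
    · exact absurd h1.2.1 hne
    · exact h1.1
    · exact h1.1
  have hx0 : par (x i) (x j) := by
    rcases hRij with h1 | h1 | h1
    · exact absurd h1.2.1 hne
    · exact absurd h1.2.1 hne
    · exact h1.2.1
  have hu0' : ⟪u j, u i⟫ = 0 := by rw [real_inner_comm]; exact hu0
  -- every other index is in the class of `i` or in the class of `j`
  have cls : ∀ k, i ≠ k → j ≠ k → par (u i) (u k) ∨ par (u j) (u k) := by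
    intro k hik hjk
    by_contra hcon
    rw [not_or] at hcon
    have h1 : ⟪u i, u k⟫ = 0 := by
      rcases h i k hik with h1 | h1 | h1
      · exact absurd h1.1 hcon.1
      · exact h1.1
      · exact h1.1
    have h2 : ⟪u j, u k⟫ = 0 := by
      rcases h j k hjk with h1 | h1 | h1
      · exact absurd h1.1 hcon.2
      · exact h1.1
      · exact h1.1
    have h1' : ⟪u k, u i⟫ = 0 := by rw [real_inner_comm]; exact h1
    have h2' : ⟪u k, u j⟫ = 0 := by rw [real_inner_comm]; exact h2
    have h3 := card_le_of_perp ![u i, u j, u k] (by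
      intro a; fin_cases a
      · exact hu i
      · exact hu j
      · exact hu k) (by
      intro a b hab
      fin_cases a <;> fin_cases b <;>
        first
        | exact absurd rfl hab
        | exact hu0
        | exact hu0'
        | exact h1
        | exact h1'
        | exact h2
        | exact h2')
    omega
  obtain ⟨k, l, m, hik, hil, him, hjk, hjl, hjm, hkl, hkm, hlm⟩ : ∃ k l m : Fin 5,
      i ≠ k ∧ i ≠ l ∧ i ≠ m ∧ j ≠ k ∧ j ≠ l ∧ j ≠ m ∧ k ≠ l ∧ k ≠ m ∧ l ≠ m := by
    have hcard : (((Finset.univ : Finset (Fin 5)).erase i).erase j).card = 3 := by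
      rw [Finset.card_erase_of_mem (Finset.mem_erase.2 ⟨hij.symm, Finset.mem_univ _⟩),
        Finset.card_erase_of_mem (Finset.mem_univ _)]
      rfl
    obtain ⟨k, l, m, hkl, hkm, hlm, hs⟩ := Finset.card_eq_three.1 hcard
    have hk : k ∈ ((Finset.univ : Finset (Fin 5)).erase i).erase j := by rw [hs]; simp
    have hl : l ∈ ((Finset.univ : Finset (Fin 5)).erase i).erase j := by rw [hs]; simp
    have hm : m ∈ ((Finset.univ : Finset (Fin 5)).erase i).erase j := by rw [hs]; simp
    simp only [Finset.mem_erase, Finset.mem_univ, and_true] at hk hl hm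
    exact ⟨k, l, m, hk.2.symm, hl.2.symm, hm.2.symm, hk.1.symm, hl.1.symm, hm.1.symm, hkl, hkm, hlm⟩
  have A := fun {a b : Fin 5} => five_aux hu hx hy h (i := i) (j := j) (k := a) (l := b) hij
  have B := fun {a b : Fin 5} => five_aux hu hx hy h (i := j) (j := i) (k := a) (l := b) hij.symm
  rcases cls k hik hjk with c1 | c1 <;> rcases cls l hil hjl with c2 | c2 <;>
    rcases cls m him hjm with c3 | c3
  · exact A hik hil hjk hjl hkl hu0 hx0 c1 c2
  · exact A hik hil hjk hjl hkl hu0 hx0 c1 c2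
  · exact A hik him hjk hjm hkm hu0 hx0 c1 c3
  · exact B hjl hjm hil him hlm hu0' hx0.symm c2 c3
  · exact A hil him hjl hjm hlm hu0 hx0 c2 c3
  · exact B hjk hjm hik him hkm hu0' hx0.symm c1 c3
  · exact B hjk hjl hik hil hkl hu0' hx0.symm c1 c2
  · exact B hjk hjl hik hil hkl hu0' hx0.symm c1 c2

end five

end Pool.Agent.N538.TwoNum
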