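import Mathlib

/-!
# Compact symmetric spaces, two-numbers and total mod 2 Betti numbers: definitions

A connected compact Riemannian symmetric space is presented as a compact connected subset `M` of a
finite-dimensional Euclidean space `E` on which the group of the linear isometries of `E` preserving
`M` is transitive (so `M` is an orbit of a compact Lie group acting linearly and isometrically, hence
a closed smooth submanifold, with the induced Riemannian metric), together with, for every point `p`
of `M`, a linear isometry `sym p` of `E` which maps `M` onto itself, fixes `p` and acts as `-1` on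
the tangent vectors of `M` at `p`. The restriction of `sym p` to `M` is the geodesic symmetry at `p`.
-/

set_option autoImplicit false

open Topology

namespace Pool.Agent.N538.TwoNum

/-- A connected compact Riemannian symmetric space, in the form of a homogeneous submanifold
`carrier` of the Euclidean space `E` with the induced metric; `sym p` is a linear isometry of `E`
whose restriction to `carrier` is the geodesic symmetry at the point `p`. -/
structure SymSpace (E : Type) [NormedAddCommGroup E] [InnerProductSpace ℝ E] where
  /-- the set of points -/
  carrier : Set E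
  isCompact : IsCompact carrier
  isConnected : IsConnected carrier
  /-- the linear isometries of `E` preserving the set act transitively on it -/
  homogeneous : ∀ p ∈ carrier, ∀ q ∈ carrier, ∃ f : E ≃ₗᵢ[ℝ] E, f '' carrier = carrier ∧ f p = q
  /-- the geodesic symmetries, as linear isometries of the ambient space -/
  sym : E → (E ≃ₗᵢ[ℝ] E)
  sym_image : ∀ p ∈ carrier, sym p '' carrier = carrier
  sym_self : ∀ p ∈ carrier, sym p p = p
  /-- `sym p` acts as `-1` on every velocity vector at `p` of a curve in the space -/
  sym_tangent : ∀ p ∈ carrier, ∀ (γ : ℝ → E) (v : E), (∀ t, γ t ∈ carrier) → γ 0 = p →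
    HasDerivAt γ v 0 → sym p v = -v

/-- A set `A` of points is antipodal if `s_x(y) = y` for all `x`, `y` in `A`. -/
def SymSpace.IsAntipodal {E : Type} [NormedAddCommGroup E] [InnerProductSpace ℝ E]
    (M : SymSpace E) (A : Set E) : Prop :=
  A ⊆ M.carrier ∧ ∀ x ∈ A, ∀ y ∈ A, M.sym x y = y

/-- The two-number: the maximal cardinality of an antipodal set. -/
noncomputable def SymSpace.twoNumber {E : Type} [NormedAddCommGroup E] [InnerProductSpace ℝ E]
    (M : SymSpace E) : ℕ∞ :=
  ⨆ A : {A : Set E // M.IsAntipodal A}, A.1.encard

section Cohomology

variable (X : Type) [TopologicalSpace X]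

/-- Singular `n`-simplices: continuous maps of the standard simplex with `n + 1` vertices. -/
abbrev SingSimplex (n : ℕ) : Type := C(stdSimplex ℝ (Fin (n + 1)), X)

/-- Singular `n`-cochains with values in the field with two elements. -/
abbrev Cochain (n : ℕ) : Type := SingSimplex X n → ZMod 2

/-- The `i`-th face inclusion of the standard simplex. -/
noncomputable def face (n : ℕ) (i : Fin (n + 2)) :
    C(stdSimplex ℝ (Fin (n + 1)), stdSimplex ℝ (Fin (n + 2))) :=
  ⟨stdSimplex.map i.succAbove, stdSimplex.continuous_map _⟩

/-- The coboundary `(δ c)(σ) = ∑ i, c (i-th face of σ)` (no signs are needed modulo 2). -/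
noncomputable def cobd (n : ℕ) : Cochain X n →ₗ[ZMod 2] Cochain X (n + 1) where
  toFun c σ := ∑ i : Fin (n + 2), c (σ.comp (face n i))
  map_add' a b := by
    funext σ
    simp [Finset.sum_add_distrib]
  map_smul' r a := by
    funext σ
    simp [Finset.mul_sum]

/-- The coboundaries of degree `n`. -/
noncomputable def coboundaries : (n : ℕ) → Submodule (ZMod 2) (Cochain X n)
  | 0 => ⊥
  | n + 1 => LinearMap.range (cobd X n)

/-- The singular cohomology `Hⁿ(X; 𝔽₂)`: cocycles modulo coboundaries. -/
abbrev Coh (n : ℕ) : Type :=
  LinearMap.ker (cobd X n) ⧸ (coboundaries X n).submoduleOf (LinearMap.ker (cobd X n))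

/-- The total mod 2 Betti number `∑ₙ dim Hⁿ(X; 𝔽₂)`: the dimension of `⊕ₙ Hⁿ(X; 𝔽₂)`. -/
noncomputable def totalBetti : ℕ∞ :=
  Cardinal.toENat (Module.rank (ZMod 2) (DirectSum ℕ (Coh X)))

end Cohomology

end Pool.Agent.N538.TwoNum
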