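import Pool.Agent.N538.TwoNum.Defs

/-! Building blocks: spheres and sets of pure tensors. -/

set_option autoImplicit false
set_option linter.unusedSectionVars false
set_option linter.unusedSimpArgs false

open Topology Metric
open scoped TensorProduct RealInnerProductSpace

namespace Pool.Agent.N538.TwoNum

/-- auxiliary predicate: a homogeneous symmetric subset of the unit sphere invariant under `-1`. -/
structure Good {E : Type} [NormedAddCommGroup E] [InnerProductSpace ℝ E]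
    (M : Set E) (s : E → (E ≃ₗᵢ[ℝ] E)) : Prop where
  compact : IsCompact M
  conn : IsConnected M
  norm_one : ∀ p ∈ M, ‖p‖ = 1
  neg_mem : ∀ p ∈ M, -p ∈ M
  hom : ∀ p ∈ M, ∀ q ∈ M, ∃ f : E ≃ₗᵢ[ℝ] E, f '' M = M ∧ f p = q
  image : ∀ p ∈ M, s p '' M = M
  self : ∀ p ∈ M, s p p = p
  sneg : ∀ p ∈ M, s (-p) = s p
  bound : ∃ C : ℝ, 0 ≤ C ∧ ∀ p ∈ M, ∀ q ∈ M, ‖s p q + q - (2 : ℝ) • p‖ ≤ C * ‖q - p‖ ^ 2

section sphere

variable {V : Type} [NormedAddCommGroup V] [InnerProductSpace ℝ V] [FiniteDimensional ℝ V]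

/-- the reflection in the line spanned by `a` -/
noncomputable def rho (a : V) : V ≃ₗᵢ[ℝ] V := (ℝ ∙ a).reflection

theorem rho_apply {a : V} (ha : ‖a‖ = 1) (v : V) : rho a v = (2 * ⟪a, v⟫) • a - v := by
  unfold rho
  rw [Submodule.reflection_singleton_apply, ha]
  simp only [one_pow, div_one, RCLike.ofReal_one, RCLike.ofReal_real_eq_id, id]
  rw [two_mul, add_smul, two_smul]

theorem rho_neg (a : V) : rho (-a) = rho a := by
  unfold rho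
  have h : (ℝ ∙ (-a)) = (ℝ ∙ a) := by rw [← Set.neg_singleton, Submodule.span_neg]
  congr 1

theorem rho_self {a : V} (ha : ‖a‖ = 1) : rho a a = a := by
  rw [rho_apply ha, real_inner_self_eq_norm_sq, ha]
  rw [one_pow, mul_one, two_smul, add_sub_cancel_right]

theorem good_sphere (h : 1 < Module.rank ℝ V) : Good (sphere (0 : V) 1) rho where
  compact := isCompact_sphere _ _
  conn := isConnected_sphere h 0 zero_le_one
  norm_one p hp := mem_sphere_zero_iff_norm.1 hp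
  neg_mem p hp := by
    rw [mem_sphere_zero_iff_norm] at hp ⊢
    rwa [norm_neg]
  hom p hp q hq := by
    rw [mem_sphere_zero_iff_norm] at hp hq
    refine ⟨(ℝ ∙ (p - q))ᗮ.reflection, ?_, ?_⟩
    · rw [LinearIsometryEquiv.image_sphere, map_zero]
    · exact Submodule.reflection_sub (hp.trans hq.symm)
  image p hp := by rw [LinearIsometryEquiv.image_sphere, map_zero]
  self p hp := rho_self (mem_sphere_zero_iff_norm.1 hp)
  sneg p hp := rho_neg p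
  bound := by
    refine ⟨1, zero_le_one, fun p hp q hq => ?_⟩
    rw [mem_sphere_zero_iff_norm] at hp hq
    rw [rho_apply hp]
    have e : (2 * ⟪p, q⟫) • p - q + q - (2 : ℝ) • p = (2 * (⟪p, q⟫ - 1)) • p := by
      rw [mul_sub, sub_smul, mul_one]; abel
    rw [e, norm_smul, hp, mul_one, one_mul, Real.norm_eq_abs]
    have h1 : ⟪p, q⟫ ≤ 1 := by
      have := real_inner_le_norm p q
      rwa [hp, hq, one_mul] at this
    have h2 : ‖q - p‖ ^ 2 = 2 - 2 * ⟪p, q⟫ := by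
      rw [norm_sub_sq_real, hp, hq, real_inner_comm]; ring
    rw [h2, abs_of_nonpos (by linarith)]
    linarith

end sphere

section seg

variable {V E : Type} [NormedAddCommGroup V] [InnerProductSpace ℝ V] [FiniteDimensional ℝ V]
  [NormedAddCommGroup E] [InnerProductSpace ℝ E] [FiniteDimensional ℝ E]

/-- two equal pure tensors of unit vectors have equal factors up to a common sign -/
theorem tmul_eq {a a' : V} {b b' : E} (ha : ‖a‖ = 1) (ha' : ‖a'‖ = 1) (hb : ‖b‖ = 1)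
    (hb' : ‖b'‖ = 1) (h : a ⊗ₜ[ℝ] b = a' ⊗ₜ[ℝ] b') :
    (a' = a ∧ b' = b) ∨ (a' = -a ∧ b' = -b) := by
  have h1 : ⟪a, a'⟫ * ⟪b, b'⟫ = 1 := by
    have h2 := congrArg (fun T => (inner ℝ (a ⊗ₜ[ℝ] b) T : ℝ)) h
    simp only [TensorProduct.inner_tmul] at h2
    rw [← h2, real_inner_self_eq_norm_sq, real_inner_self_eq_norm_sq, ha, hb]
    norm_num
  have h2 : |⟪a, a'⟫| ≤ 1 := by
    have := abs_real_inner_le_norm a a'
    rwa [ha, ha', one_mul] at this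
  have h3 : |⟪b, b'⟫| ≤ 1 := by
    have := abs_real_inner_le_norm b b'
    rwa [hb, hb', one_mul] at this
  rw [abs_le] at h2 h3
  rcases le_or_gt 0 ⟪a, a'⟫ with h0 | h0
  · left
    have h4 : ⟪a, a'⟫ = 1 := by nlinarith
    have h5 : ⟪b, b'⟫ = 1 := by rw [h4, one_mul] at h1; exact h1
    exact ⟨((inner_eq_one_iff_of_norm_eq_one ha ha').1 h4).symm,
      ((inner_eq_one_iff_of_norm_eq_one hb hb').1 h5).symm⟩
  · right
    have h4 : ⟪a, a'⟫ = -1 := by nlinarith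
    have h5 : ⟪b, b'⟫ = -1 := by rw [h4] at h1; linarith
    have h6 : ⟪a, -a'⟫ = 1 := by rw [inner_neg_right, h4]; norm_num
    have h7 : ⟪b, -b'⟫ = 1 := by rw [inner_neg_right, h5]; norm_num
    have h8 := (inner_eq_one_iff_of_norm_eq_one ha (by rw [norm_neg]; exact ha')).1 h6
    have h9 := (inner_eq_one_iff_of_norm_eq_one hb (by rw [norm_neg]; exact hb')).1 h7
    exact ⟨by rw [h8, neg_neg], by rw [h9, neg_neg]⟩

/-- the set of the tensors `a ⊗ m`, `a` a unit vector, `m` in `M` -/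
def Seg (V : Type) [NormedAddCommGroup V] [InnerProductSpace ℝ V] (M : Set E) :
    Set (V ⊗[ℝ] E) := {T | ∃ a : V, ∃ m ∈ M, ‖a‖ = 1 ∧ a ⊗ₜ[ℝ] m = T}

open Classical in
/-- the symmetries of `Seg V M` -/
noncomputable def segSym (M : Set E) (s : E → (E ≃ₗᵢ[ℝ] E)) (T : V ⊗[ℝ] E) :
    (V ⊗[ℝ] E) ≃ₗᵢ[ℝ] (V ⊗[ℝ] E) :=
  if h : ∃ a : V, ∃ m ∈ M, ‖a‖ = 1 ∧ a ⊗ₜ[ℝ] m = T then
    TensorProduct.congrIsometry (rho h.choose) (s h.choose_spec.choose) else LinearIsometryEquiv.refl ℝ _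

variable {M : Set E} {s : E → (E ≃ₗᵢ[ℝ] E)}

theorem segSym_tmul (hM : Good M s) {a : V} {m : E} (ha : ‖a‖ = 1) (hm : m ∈ M) :
    segSym M s (a ⊗ₜ[ℝ] m) = TensorProduct.congrIsometry (rho a) (s m) := by
  have h : ∃ a' : V, ∃ m' ∈ M, ‖a'‖ = 1 ∧ a' ⊗ₜ[ℝ] m' = a ⊗ₜ[ℝ] m := ⟨a, m, hm, ha, rfl⟩
  have key : ∀ (a' : V) (m' : E), m' ∈ M → ‖a'‖ = 1 → a' ⊗ₜ[ℝ] m' = a ⊗ₜ[ℝ] m →
      TensorProduct.congrIsometry (rho a') (s m') = TensorProduct.congrIsometry (rho a) (s m) := by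
    intro a' m' h1 h2 h3
    rcases tmul_eq ha h2 (hM.norm_one m hm) (hM.norm_one _ h1) h3.symm with ⟨h4, h5⟩ | ⟨h4, h5⟩
    · rw [h4, h5]
    · rw [h4, h5, rho_neg, hM.sneg m hm]
  rw [segSym, dif_pos h]
  obtain ⟨h1, h2, h3⟩ := h.choose_spec.choose_spec
  exact key _ _ h1 h2 h3

theorem congr_image_seg {f : V ≃ₗᵢ[ℝ] V} {g : E ≃ₗᵢ[ℝ] E} (hg : g '' M = M) :
    TensorProduct.congrIsometry f g '' (Seg V M) = Seg V M := by
  ext T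
  constructor
  · rintro ⟨_, ⟨a, m, hm, ha, rfl⟩, rfl⟩
    refine ⟨f a, g m, ?_, ?_, ?_⟩
    · rw [← hg]; exact ⟨m, hm, rfl⟩
    · rw [f.norm_map]; exact ha
    · simp
  · rintro ⟨a, m, hm, ha, rfl⟩
    rw [← hg] at hm
    obtain ⟨m', hm', rfl⟩ := hm
    refine ⟨f.symm a ⊗ₜ[ℝ] m', ⟨f.symm a, m', hm', ?_, rfl⟩, ?_⟩
    · rw [f.symm.norm_map]; exact ha
    · simp

theorem seg_key (hM : Good M s) {C : ℝ} (hC : 0 ≤ C)
    (hb : ∀ p ∈ M, ∀ q ∈ M, ‖s p q + q - (2 : ℝ) • p‖ ≤ C * ‖q - p‖ ^ 2)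
    {a b : V} {m n : E} (ha : ‖a‖ = 1) (hb1 : ‖b‖ = 1) (hm : m ∈ M) (hn : n ∈ M)
    (h0 : 0 ≤ ⟪a, b⟫) :
    ‖rho a b ⊗ₜ[ℝ] s m n + b ⊗ₜ[ℝ] n - (2 : ℝ) • (a ⊗ₜ[ℝ] m)‖ ≤
      (4 * (2 + 3 * C)) * ‖b ⊗ₜ[ℝ] n - a ⊗ₜ[ℝ] m‖ ^ 2 := by
  have hm1 := hM.norm_one m hm
  have hn1 := hM.norm_one n hn
  set δ := b - a with hδ
  set μ := n - m with hμ
  -- first factor
  have e1 : ‖rho a b + b - (2 : ℝ) • a‖ ≤ ‖δ‖ ^ 2 := by
    rw [rho_apply ha]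
    have e : (2 * ⟪a, b⟫) • a - b + b - (2 : ℝ) • a = (2 * (⟪a, b⟫ - 1)) • a := by
      rw [mul_sub, sub_smul, mul_one]; abel
    rw [e, norm_smul, ha, mul_one, Real.norm_eq_abs]
    have h1 : ⟪a, b⟫ ≤ 1 := by
      have := real_inner_le_norm a b
      rwa [ha, hb1, one_mul] at this
    have h2 : ‖δ‖ ^ 2 = 2 - 2 * ⟪a, b⟫ := by
      rw [hδ, norm_sub_sq_real, ha, hb1, real_inner_comm]; ring
    rw [h2, abs_of_nonpos (by linarith)]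
    linarith
  have e2 := hb m hm n hn
  have hrb : ‖rho a b‖ = 1 := by rw [LinearIsometryEquiv.norm_map]; exact hb1
  have hsn : ‖s m n‖ = 1 := by rw [LinearIsometryEquiv.norm_map]; exact hn1
  -- decomposition
  have key : rho a b ⊗ₜ[ℝ] s m n + b ⊗ₜ[ℝ] n - (2 : ℝ) • (a ⊗ₜ[ℝ] m) =
      (rho a b + b - (2 : ℝ) • a) ⊗ₜ[ℝ] s m n
      + ((b - a) ⊗ₜ[ℝ] ((2 : ℝ) • (n - m)) - (b - a) ⊗ₜ[ℝ] (s m n + n - (2 : ℝ) • m))
      + a ⊗ₜ[ℝ] (s m n + n - (2 : ℝ) • m) := by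
    simp only [TensorProduct.add_tmul, TensorProduct.sub_tmul, TensorProduct.tmul_add,
      TensorProduct.tmul_sub, TensorProduct.tmul_smul, ← TensorProduct.smul_tmul']
    module
  have hδ2 : ‖δ‖ ≤ 2 := by
    calc ‖δ‖ ≤ ‖b‖ + ‖a‖ := norm_sub_le _ _
      _ = 2 := by rw [hb1, ha]; norm_num
  have n1 : ‖(rho a b + b - (2 : ℝ) • a) ⊗ₜ[ℝ] s m n‖ ≤ ‖δ‖ ^ 2 := by
    rw [TensorProduct.norm_tmul, hsn, mul_one]; exact e1
  have n2 : ‖(b - a) ⊗ₜ[ℝ] ((2 : ℝ) • (n - m))‖ ≤ 2 * (‖δ‖ * ‖μ‖) := by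
    rw [TensorProduct.norm_tmul, norm_smul, Real.norm_eq_abs, abs_two]
    linarith
  have n3 : ‖(b - a) ⊗ₜ[ℝ] (s m n + n - (2 : ℝ) • m)‖ ≤ 2 * (C * ‖μ‖ ^ 2) := by
    rw [TensorProduct.norm_tmul]
    exact mul_le_mul hδ2 e2 (norm_nonneg _) (by norm_num)
  have n4 : ‖a ⊗ₜ[ℝ] (s m n + n - (2 : ℝ) • m)‖ ≤ C * ‖μ‖ ^ 2 := by
    rw [TensorProduct.norm_tmul, ha, one_mul]; exact e2
  have total : ‖rho a b ⊗ₜ[ℝ] s m n + b ⊗ₜ[ℝ] n - (2 : ℝ) • (a ⊗ₜ[ℝ] m)‖ ≤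
      ‖δ‖ ^ 2 + 2 * (‖δ‖ * ‖μ‖) + 3 * (C * ‖μ‖ ^ 2) := by
    rw [key]
    refine (norm_add_le _ _).trans ?_
    have h1 := norm_add_le ((rho a b + b - (2 : ℝ) • a) ⊗ₜ[ℝ] s m n)
      ((b - a) ⊗ₜ[ℝ] ((2 : ℝ) • (n - m)) - (b - a) ⊗ₜ[ℝ] (s m n + n - (2 : ℝ) • m))
    have h2 := norm_sub_le ((b - a) ⊗ₜ[ℝ] ((2 : ℝ) • (n - m)))
      ((b - a) ⊗ₜ[ℝ] (s m n + n - (2 : ℝ) • m))
    linarith
  -- comparison of the distances
  have hαle : ⟪a, b⟫ ≤ 1 := by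
    have := real_inner_le_norm a b
    rwa [ha, hb1, one_mul] at this
  have hβ : |⟪m, n⟫| ≤ 1 := by
    have := abs_real_inner_le_norm m n
    rwa [hm1, hn1, one_mul] at this
  rw [abs_le] at hβ
  have d1 : ‖δ‖ ^ 2 = 2 - 2 * ⟪a, b⟫ := by
    rw [hδ, norm_sub_sq_real, ha, hb1, real_inner_comm]; ring
  have d2 : ‖μ‖ ^ 2 = 2 - 2 * ⟪m, n⟫ := by
    rw [hμ, norm_sub_sq_real, hm1, hn1, real_inner_comm]; ring
  have d3 : ‖b ⊗ₜ[ℝ] n - a ⊗ₜ[ℝ] m‖ ^ 2 = 2 - 2 * (⟪a, b⟫ * ⟪m, n⟫) := by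
    rw [norm_sub_sq_real, TensorProduct.norm_tmul, TensorProduct.norm_tmul, ha, hb1, hm1, hn1]
    have : (inner ℝ (b ⊗ₜ[ℝ] n) (a ⊗ₜ[ℝ] m) : ℝ) = ⟪a, b⟫ * ⟪m, n⟫ := by
      rw [TensorProduct.inner_tmul, real_inner_comm, real_inner_comm m n]
    rw [this]; ring
  have d4 : ‖δ‖ ^ 2 + ‖μ‖ ^ 2 ≤ 4 * ‖b ⊗ₜ[ℝ] n - a ⊗ₜ[ℝ] m‖ ^ 2 := by
    rw [d1, d2, d3]
    rcases le_or_gt 0 ⟪m, n⟫ with h | h
    · nlinarith [mul_nonneg h0 h]
    · nlinarith [mul_nonneg h0 (neg_nonneg.2 h.le)]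
  have h2 : 2 * (‖δ‖ * ‖μ‖) ≤ ‖δ‖ ^ 2 + ‖μ‖ ^ 2 := by nlinarith [sq_nonneg (‖δ‖ - ‖μ‖)]
  have h3 : 0 ≤ ‖b ⊗ₜ[ℝ] n - a ⊗ₜ[ℝ] m‖ ^ 2 := sq_nonneg _
  have h4 : C * ‖μ‖ ^ 2 ≤ C * (4 * ‖b ⊗ₜ[ℝ] n - a ⊗ₜ[ℝ] m‖ ^ 2) :=
    mul_le_mul_of_nonneg_left (by nlinarith [sq_nonneg ‖δ‖]) hC
  nlinarith [sq_nonneg ‖δ‖, sq_nonneg ‖μ‖]

theorem good_seg (hV : 1 < Module.rank ℝ V) (hM : Good M s) :
    Good (Seg V M) (segSym (V := V) M s) where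
  compact := by
    have h : Seg V M = (fun x : V × E => x.1 ⊗ₜ[ℝ] x.2) '' (sphere (0 : V) 1 ×ˢ M) := by
      ext T
      constructor
      · rintro ⟨a, m, hm, ha, rfl⟩
        exact ⟨(a, m), ⟨mem_sphere_zero_iff_norm.2 ha, hm⟩, rfl⟩
      · rintro ⟨⟨a, m⟩, ⟨ha, hm⟩, rfl⟩
        exact ⟨a, m, hm, mem_sphere_zero_iff_norm.1 ha, rfl⟩
    rw [h]
    exact ((isCompact_sphere _ _).prod hM.compact).image TensorProduct.continuous_tmul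
  conn := by
    have h : Seg V M = (fun x : V × E => x.1 ⊗ₜ[ℝ] x.2) '' (sphere (0 : V) 1 ×ˢ M) := by
      ext T
      constructor
      · rintro ⟨a, m, hm, ha, rfl⟩
        exact ⟨(a, m), ⟨mem_sphere_zero_iff_norm.2 ha, hm⟩, rfl⟩
      · rintro ⟨⟨a, m⟩, ⟨ha, hm⟩, rfl⟩
        exact ⟨a, m, hm, mem_sphere_zero_iff_norm.1 ha, rfl⟩
    rw [h]
    exact ((isConnected_sphere hV 0 zero_le_one).prod hM.conn).image _
      TensorProduct.continuous_tmul.continuousOn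
  norm_one := by
    rintro _ ⟨a, m, hm, ha, rfl⟩
    rw [TensorProduct.norm_tmul, ha, hM.norm_one m hm, one_mul]
  neg_mem := by
    rintro _ ⟨a, m, hm, ha, rfl⟩
    refine ⟨-a, m, hm, by rw [norm_neg]; exact ha, ?_⟩
    rw [TensorProduct.neg_tmul]
  hom := by
    rintro _ ⟨a, m, hm, ha, rfl⟩ _ ⟨b, n, hn, hb, rfl⟩
    obtain ⟨g, hg, hgm⟩ := hM.hom m hm n hn
    obtain ⟨f, -, hf⟩ := (good_sphere hV).hom a (mem_sphere_zero_iff_norm.2 ha) b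
      (mem_sphere_zero_iff_norm.2 hb)
    refine ⟨TensorProduct.congrIsometry f g, congr_image_seg hg, ?_⟩
    simp [hf, hgm]
  image := by
    rintro _ ⟨a, m, hm, ha, rfl⟩
    rw [segSym_tmul hM ha hm]
    exact congr_image_seg (hM.image m hm)
  self := by
    rintro _ ⟨a, m, hm, ha, rfl⟩
    rw [segSym_tmul hM ha hm]
    simp [rho_self ha, hM.self m hm]
  sneg := by
    rintro _ ⟨a, m, hm, ha, rfl⟩
    rw [← TensorProduct.neg_tmul, segSym_tmul hM (by rw [norm_neg]; exact ha) hm,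
      segSym_tmul hM ha hm, rho_neg]
  bound := by
    obtain ⟨C, hC, hb⟩ := hM.bound
    refine ⟨4 * (2 + 3 * C), by positivity, ?_⟩
    rintro _ ⟨a, m, hm, ha, rfl⟩ _ ⟨b, n, hn, hb1, rfl⟩
    rw [segSym_tmul hM ha hm]
    rcases le_or_gt 0 ⟪a, b⟫ with h0 | h0
    · have := seg_key hM hC hb ha hb1 hm hn h0
      simpa using this
    · have h1 : 0 ≤ ⟪a, -b⟫ := by rw [inner_neg_right]; linarith
      have := seg_key hM hC hb ha (b := -b) (by rw [norm_neg]; exact hb1) hm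
        (hM.neg_mem n hn) h1
      have e : (-b) ⊗ₜ[ℝ] (-n) = b ⊗ₜ[ℝ] n := by
        rw [TensorProduct.neg_tmul, TensorProduct.tmul_neg, neg_neg]
      rw [map_neg, map_neg, e] at this
      have e2 : (-(rho a b)) ⊗ₜ[ℝ] (-(s m n)) = rho a b ⊗ₜ[ℝ] s m n := by
        rw [TensorProduct.neg_tmul, TensorProduct.tmul_neg, neg_neg]
      rw [e2] at this
      simpa using this

end seg

end Pool.Agent.N538.TwoNum
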