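import Pool.Agent.N538.TwoNum.Lower

/-! The two spaces are homeomorphic. -/

set_option autoImplicit false
set_option linter.unusedSectionVars false
set_option linter.unusedSimpArgs false

open Topology Metric
open scoped TensorProduct RealInnerProductSpace Quaternion ComplexConjugate

namespace Pool.Agent.N538.TwoNum

theorem norm_coeComplex (z : ℂ) : ‖(z : ℍ)‖ = ‖z‖ := by
  have h1 : ‖(z : ℍ)‖ * ‖(z : ℍ)‖ = ‖z‖ * ‖z‖ := by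
    rw [← Quaternion.normSq_eq_norm_mul_self, Quaternion.normSq_def', ← sq, ← Complex.normSq_eq_norm_sq,
      Complex.normSq_apply]
    simp
    ring
  nlinarith [norm_nonneg (z : ℍ), norm_nonneg z]

theorem continuous_coeComplex : Continuous (fun z : ℂ => (z : ℍ)) :=
  LinearMap.continuous_of_finiteDimensional (Quaternion.ofComplex.toLinearMap)

theorem conj_mul_self {u : ℂ} (hu : ‖u‖ = 1) : conj u * u = 1 := by
  rw [Complex.conj_mul', hu]; simp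

/-- left multiplication by the quaternion `u` in the first factor -/
noncomputable def lm (u : ℂ) : ℍ ⊗[ℝ] ℍ →ₗ[ℝ] ℍ ⊗[ℝ] ℍ :=
  TensorProduct.map (LinearMap.mulLeft ℝ (u : ℍ)) LinearMap.id

theorem lm_tmul (u : ℂ) (x y : ℍ) : lm u (x ⊗ₜ[ℝ] y) = ((u : ℍ) * x) ⊗ₜ[ℝ] y := rfl

theorem lm_lm {u : ℂ} (hu : ‖u‖ = 1) (T : ℍ ⊗[ℝ] ℍ) : lm u (lm (conj u) T) = T := by
  induction T using TensorProduct.induction_on with
  | zero => simp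
  | tmul x y =>
    rw [lm_tmul, lm_tmul, ← mul_assoc, ← Quaternion.coeComplex_mul, mul_comm, conj_mul_self hu,
      Quaternion.coeComplex_one, one_mul]
  | add a b ha hb => rw [map_add, map_add, ha, hb]

theorem lm_neg (u : ℂ) (T : ℍ ⊗[ℝ] ℍ) : lm (-u) T = - lm u T := by
  induction T using TensorProduct.induction_on with
  | zero => simp
  | tmul x y =>
    rw [lm_tmul, lm_tmul, ← TensorProduct.neg_tmul, ← neg_mul]
    congr 2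
    ext <;> simp
  | add a b ha hb => rw [map_add, map_add, ha, hb, neg_add]

/-- the common covering space -/
abbrev K : Type := sphere (0 : ℂ) 1 × (sphere (0 : ℍ) 1 × sphere (0 : ℍ) 1)

theorem nC (u : sphere (0 : ℂ) 1) : ‖(u : ℂ)‖ = 1 := mem_sphere_zero_iff_norm.1 u.2
theorem nH (u : sphere (0 : ℍ) 1) : ‖(u : ℍ)‖ = 1 := mem_sphere_zero_iff_norm.1 u.2

/-- the first covering -/
noncomputable def P1 : C(K, spaceOne.carrier) where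
  toFun k := ⟨WithLp.toLp 2 ((k.1 : ℂ) ^ 2, lm (conj (k.1 : ℂ)) ((k.2.1 : ℍ) ⊗ₜ[ℝ] (k.2.2 : ℍ))), by
    refine ⟨?_, ?_⟩
    · show (k.1 : ℂ) ^ 2 ∈ sphere (0 : ℂ) 1
      rw [mem_sphere_zero_iff_norm, norm_pow, nC, one_pow]
    · show lm (conj (k.1 : ℂ)) ((k.2.1 : ℍ) ⊗ₜ[ℝ] (k.2.2 : ℍ)) ∈ Seg ℍ (sphere (0 : ℍ) 1)
      refine ⟨_, k.2.2, k.2.2.2, ?_, (lm_tmul _ _ _).symm⟩
      rw [norm_mul, norm_coeComplex, Complex.norm_conj, nC, nH, one_mul]⟩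
  continuous_toFun := by
    refine Continuous.subtype_mk ?_ _
    refine (WithLp.prod_continuous_toLp 2 ℂ (ℍ ⊗[ℝ] ℍ)).comp (Continuous.prodMk ?_ ?_)
    · exact (continuous_subtype_val.comp continuous_fst).pow 2
    · have h : Continuous (fun k : K => (((conj (k.1 : ℂ) : ℂ) : ℍ) * (k.2.1 : ℍ), (k.2.2 : ℍ))) := by
        refine Continuous.prodMk (Continuous.mul ?_ ?_) ?_
        · exact continuous_coeComplex.comp
            (Complex.continuous_conj.comp (continuous_subtype_val.comp continuous_fst))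
        · exact continuous_subtype_val.comp (continuous_fst.comp continuous_snd)
        · exact continuous_subtype_val.comp (continuous_snd.comp continuous_snd)
      exact TensorProduct.continuous_tmul.comp h

/-- the second covering -/
noncomputable def P2 : C(K, spaceTwo.carrier) where
  toFun k := ⟨(k.1 : ℂ) ⊗ₜ[ℝ] ((k.2.1 : ℍ) ⊗ₜ[ℝ] (k.2.2 : ℍ)), by
    exact ⟨(k.1 : ℂ), _, ⟨(k.2.1 : ℍ), (k.2.2 : ℍ), k.2.2.2, nH _, rfl⟩, nC _, rfl⟩⟩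
  continuous_toFun := by
    refine Continuous.subtype_mk ?_ _
    have h1 : Continuous (fun k : K => ((k.2.1 : ℍ) ⊗ₜ[ℝ] (k.2.2 : ℍ))) := by
      have h : Continuous (fun k : K => ((k.2.1 : ℍ), (k.2.2 : ℍ))) :=
        (continuous_subtype_val.comp (continuous_fst.comp continuous_snd)).prodMk
          (continuous_subtype_val.comp (continuous_snd.comp continuous_snd))
      exact TensorProduct.continuous_tmul.comp h
    have h2 : Continuous (fun k : K => ((k.1 : ℂ), ((k.2.1 : ℍ) ⊗ₜ[ℝ] (k.2.2 : ℍ)))) :=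
      (continuous_subtype_val.comp continuous_fst).prodMk h1
    exact TensorProduct.continuous_tmul.comp h2

theorem P1_surjective : Function.Surjective P1 := by
  rintro ⟨z, h1, h2⟩
  obtain ⟨u, hu⟩ := IsAlgClosed.exists_pow_nat_eq z.fst (n := 2) (by norm_num)
  have hu1 : ‖u‖ = 1 := by
    have h3 : ‖u‖ ^ 2 = 1 := by
      rw [← norm_pow, hu]; exact mem_sphere_zero_iff_norm.1 h1
    nlinarith [norm_nonneg u]
  obtain ⟨a, b, hb, ha, hab⟩ := h2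
  have hx : ‖(u : ℍ) * a‖ = 1 := by rw [norm_mul, norm_coeComplex, hu1, ha, one_mul]
  refine ⟨(⟨u, mem_sphere_zero_iff_norm.2 hu1⟩, (⟨(u : ℍ) * a, mem_sphere_zero_iff_norm.2 hx⟩,
    ⟨b, hb⟩)), ?_⟩
  apply Subtype.ext
  apply (WithLp.equiv 2 (ℂ × (ℍ ⊗[ℝ] ℍ))).injective
  refine Prod.ext hu ?_
  show lm (conj u) (((u : ℍ) * a) ⊗ₜ[ℝ] b) = z.snd
  rw [← hab, ← lm_tmul]
  have := lm_lm (u := conj u) (by rw [Complex.norm_conj]; exact hu1) (a ⊗ₜ[ℝ] b)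
  rwa [Complex.conj_conj] at this

theorem P2_surjective : Function.Surjective P2 := by
  rintro ⟨z, a, m, ⟨b, c, hc, hb, rfl⟩, ha, h⟩
  refine ⟨(⟨a, mem_sphere_zero_iff_norm.2 ha⟩, (⟨b, mem_sphere_zero_iff_norm.2 hb⟩, ⟨c, hc⟩)), ?_⟩
  exact Subtype.ext h

theorem P1_eq (k k' : K) : P1 k = P1 k' ↔
    ((k'.1 : ℂ) = k.1 ∧ (k'.2.1 : ℍ) ⊗ₜ[ℝ] (k'.2.2 : ℍ) = (k.2.1 : ℍ) ⊗ₜ[ℝ] (k.2.2 : ℍ)) ∨
    ((k'.1 : ℂ) = -k.1 ∧ (k'.2.1 : ℍ) ⊗ₜ[ℝ] (k'.2.2 : ℍ) = -((k.2.1 : ℍ) ⊗ₜ[ℝ] (k.2.2 : ℍ))) := by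
  have e : P1 k = P1 k' ↔ (k.1 : ℂ) ^ 2 = (k'.1 : ℂ) ^ 2 ∧
      lm (conj (k.1 : ℂ)) ((k.2.1 : ℍ) ⊗ₜ[ℝ] (k.2.2 : ℍ)) =
      lm (conj (k'.1 : ℂ)) ((k'.2.1 : ℍ) ⊗ₜ[ℝ] (k'.2.2 : ℍ)) := by
    constructor
    · intro h
      have h1 := congrArg (fun z => (z : WithLp 2 (ℂ × (ℍ ⊗[ℝ] ℍ)))) (Subtype.ext_iff.1 h)
      exact ⟨congrArg WithLp.fst h1, congrArg WithLp.snd h1⟩
    · rintro ⟨h1, h2⟩
      apply Subtype.ext
      apply (WithLp.equiv 2 (ℂ × (ℍ ⊗[ℝ] ℍ))).injective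
      exact Prod.ext h1 h2
  rw [e]
  constructor
  · rintro ⟨h1, h2⟩
    rcases sq_eq_sq_iff_eq_or_eq_neg.1 h1 with h3 | h3
    · left
      refine ⟨h3.symm, ?_⟩
      rw [h3] at h2
      have := congrArg (lm (k'.1 : ℂ)) h2
      rw [lm_lm (nC _), lm_lm (nC _)] at this
      exact this.symm
    · right
      refine ⟨by rw [h3, neg_neg], ?_⟩
      rw [h3, map_neg, lm_neg] at h2
      have := congrArg (lm (k'.1 : ℂ)) h2
      rw [map_neg, lm_lm (nC _), lm_lm (nC _)] at this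
      exact this.symm
  · rintro (⟨h1, h2⟩ | ⟨h1, h2⟩)
    · rw [h1, h2]; exact ⟨rfl, rfl⟩
    · rw [h1, h2]
      refine ⟨by ring, ?_⟩
      rw [map_neg (lm _), map_neg (starRingEnd ℂ), lm_neg, neg_neg]

theorem P2_eq (k k' : K) : P2 k = P2 k' ↔
    ((k'.1 : ℂ) = k.1 ∧ (k'.2.1 : ℍ) ⊗ₜ[ℝ] (k'.2.2 : ℍ) = (k.2.1 : ℍ) ⊗ₜ[ℝ] (k.2.2 : ℍ)) ∨
    ((k'.1 : ℂ) = -k.1 ∧ (k'.2.1 : ℍ) ⊗ₜ[ℝ] (k'.2.2 : ℍ) = -((k.2.1 : ℍ) ⊗ₜ[ℝ] (k.2.2 : ℍ))) := by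
  have hn : ∀ k : K, ‖(k.2.1 : ℍ) ⊗ₜ[ℝ] (k.2.2 : ℍ)‖ = 1 := by
    intro k
    rw [TensorProduct.norm_tmul, nH, nH, one_mul]
  constructor
  · intro h
    have h1 : (k.1 : ℂ) ⊗ₜ[ℝ] ((k.2.1 : ℍ) ⊗ₜ[ℝ] (k.2.2 : ℍ)) =
      (k'.1 : ℂ) ⊗ₜ[ℝ] ((k'.2.1 : ℍ) ⊗ₜ[ℝ] (k'.2.2 : ℍ)) := Subtype.ext_iff.1 h
    exact tmul_eq (nC _) (nC _) (hn _) (hn _) h1
  · rintro (⟨h1, h2⟩ | ⟨h1, h2⟩)
    · apply Subtype.ext
      show (k.1 : ℂ) ⊗ₜ[ℝ] ((k.2.1 : ℍ) ⊗ₜ[ℝ] (k.2.2 : ℍ)) =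
        (k'.1 : ℂ) ⊗ₜ[ℝ] ((k'.2.1 : ℍ) ⊗ₜ[ℝ] (k'.2.2 : ℍ))
      rw [h1, h2]
    · apply Subtype.ext
      show (k.1 : ℂ) ⊗ₜ[ℝ] ((k.2.1 : ℍ) ⊗ₜ[ℝ] (k.2.2 : ℍ)) =
        (k'.1 : ℂ) ⊗ₜ[ℝ] ((k'.2.1 : ℍ) ⊗ₜ[ℝ] (k'.2.2 : ℍ))
      rw [h1, h2, TensorProduct.neg_tmul, TensorProduct.tmul_neg, neg_neg]

theorem exists_homeo {A X Y : Type} [TopologicalSpace A] [TopologicalSpace X] [TopologicalSpace Y]
    (f : C(A, X)) (g : C(A, Y)) (hf : IsQuotientMap f) (hg : IsQuotientMap g)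
    (h : Setoid.ker f = Setoid.ker g) : Nonempty (X ≃ₜ Y) := by
  have e1 := hf.homeomorph
  have e2 := hg.homeomorph
  rw [h] at e1
  exact ⟨e1.symm.trans e2⟩

/-- **The two symmetric spaces are homeomorphic.** -/
theorem homeomorphic : Nonempty (spaceOne.carrier ≃ₜ spaceTwo.carrier) := by
  have c1 : CompactSpace K := inferInstance
  refine exists_homeo P1 P2 ?_ ?_ ?_
  · exact (P1.continuous.isClosedMap).isQuotientMap P1.continuous P1_surjective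
  · exact (P2.continuous.isClosedMap).isQuotientMap P2.continuous P2_surjective
  · ext k k'
    show P1 k = P1 k' ↔ P2 k = P2 k'
    rw [P1_eq, P2_eq]

end Pool.Agent.N538.TwoNum
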