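import Pool.Agent.N538.TwoNum.Defs

/-! Homeomorphism invariance of the total mod 2 Betti number. -/

set_option autoImplicit false

open Topology

namespace Pool.Agent.N538.TwoNum

variable {X Y : Type} [TopologicalSpace X] [TopologicalSpace Y]

/-- the isomorphism of cochains induced by a homeomorphism -/
noncomputable def cochainEquiv (e : X ≃ₜ Y) (n : ℕ) : Cochain X n ≃ₗ[ZMod 2] Cochain Y n where
  toFun c σ := c ((e.symm : C(Y, X)).comp σ)
  invFun c σ := c ((e : C(X, Y)).comp σ)
  map_add' a b := rfl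
  map_smul' r a := rfl
  left_inv c := by
    funext σ
    show c _ = c _
    congr 1
    ext x
    simp
  right_inv c := by
    funext σ
    show c _ = c _
    congr 1
    ext x
    simp

theorem cochainEquiv_apply (e : X ≃ₜ Y) (n : ℕ) (c : Cochain X n) (σ : SingSimplex Y n) :
    cochainEquiv e n c σ = c ((e.symm : C(Y, X)).comp σ) := rfl

theorem cobd_cochainEquiv (e : X ≃ₜ Y) (n : ℕ) (c : Cochain X n) :
    cobd Y n (cochainEquiv e n c) = cochainEquiv e (n + 1) (cobd X n c) := by
  funext σ
  show ∑ i : Fin (n + 2), cochainEquiv e n c (σ.comp (face n i)) =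
    ∑ i : Fin (n + 2), c ((((e.symm : C(Y, X)).comp σ)).comp (face n i))
  rfl

theorem map_ker (e : X ≃ₜ Y) (n : ℕ) :
    (LinearMap.ker (cobd X n)).map (cochainEquiv e n).toLinearMap = LinearMap.ker (cobd Y n) := by
  ext c
  constructor
  · rintro ⟨b, hb, rfl⟩
    have hb' : cobd X n b = 0 := hb
    show cobd Y n (cochainEquiv e n b) = 0
    rw [cobd_cochainEquiv, hb', map_zero]
  · intro hc
    have hc' : cobd Y n c = 0 := hc
    refine ⟨(cochainEquiv e n).symm c, ?_, (cochainEquiv e n).apply_symm_apply c⟩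
    show cobd X n ((cochainEquiv e n).symm c) = 0
    apply (cochainEquiv e (n + 1)).injective
    rw [← cobd_cochainEquiv, LinearEquiv.apply_symm_apply, hc', map_zero]

theorem map_coboundaries (e : X ≃ₜ Y) (n : ℕ) :
    (coboundaries X n).map (cochainEquiv e n).toLinearMap = coboundaries Y n := by
  cases n with
  | zero => simp [coboundaries]
  | succ n =>
    ext c
    constructor
    · rintro ⟨b, ⟨a, rfl⟩, rfl⟩
      exact ⟨cochainEquiv e n a, cobd_cochainEquiv e n a⟩
    · rintro ⟨a, rfl⟩
      refine ⟨cobd X n ((cochainEquiv e n).symm a), ⟨_, rfl⟩, ?_⟩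
      show cochainEquiv e (n + 1) _ = _
      rw [← cobd_cochainEquiv, LinearEquiv.apply_symm_apply]

/-- the isomorphism of cocycles -/
noncomputable def kerEquiv (e : X ≃ₜ Y) (n : ℕ) :
    LinearMap.ker (cobd X n) ≃ₗ[ZMod 2] LinearMap.ker (cobd Y n) :=
  ((cochainEquiv e n).submoduleMap (LinearMap.ker (cobd X n))).trans
    (LinearEquiv.ofEq _ _ (map_ker e n))

theorem kerEquiv_coe (e : X ≃ₜ Y) (n : ℕ) (c : LinearMap.ker (cobd X n)) :
    (kerEquiv e n c : Cochain Y n) = cochainEquiv e n c := rfl

/-- the isomorphism of cohomology -/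
noncomputable def cohEquiv (e : X ≃ₜ Y) (n : ℕ) : Coh X n ≃ₗ[ZMod 2] Coh Y n := by
  refine Submodule.Quotient.equiv _ _ (kerEquiv e n) ?_
  ext c
  constructor
  · rintro ⟨b, hb, rfl⟩
    have hb' : (b : Cochain X n) ∈ coboundaries X n := hb
    show (kerEquiv e n b : Cochain Y n) ∈ coboundaries Y n
    rw [kerEquiv_coe, ← map_coboundaries e n]
    exact ⟨_, hb', rfl⟩
  · intro hc
    have hc' : (c : Cochain Y n) ∈ coboundaries Y n := hc
    refine ⟨(kerEquiv e n).symm c, ?_, (kerEquiv e n).apply_symm_apply c⟩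
    show ((kerEquiv e n).symm c : Cochain X n) ∈ coboundaries X n
    rw [← map_coboundaries e n] at hc'
    obtain ⟨b, hb, hbc⟩ := hc'
    have h1 : cochainEquiv e n ((kerEquiv e n).symm c : Cochain X n) = (c : Cochain Y n) := by
      rw [← kerEquiv_coe, LinearEquiv.apply_symm_apply]
    have h2 : ((kerEquiv e n).symm c : Cochain X n) = b := by
      apply (cochainEquiv e n).injective
      rw [h1]
      exact hbc.symm
    rw [h2]
    exact hb

/-- **The total mod 2 Betti number is a homeomorphism invariant.** -/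
theorem totalBetti_congr (e : X ≃ₜ Y) : totalBetti X = totalBetti Y := by
  unfold totalBetti
  congr 1
  exact LinearEquiv.rank_eq (DirectSum.congrLinearEquiv (fun n => cohEquiv e n))

end Pool.Agent.N538.TwoNum
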