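import Pool.Agent.N538.TwoNum.Prod

/-! An antipodal set with sixteen elements in `S¹ × (S³ × S³)/±1`. -/

set_option autoImplicit false
set_option linter.unusedSectionVars false
set_option linter.unusedSimpArgs false

open Topology Metric
open scoped TensorProduct RealInnerProductSpace Quaternion

namespace Pool.Agent.N538.TwoNum

/-- the sign of a Boolean -/
noncomputable def sg (b : Bool) : ℝ := if b then 1 else -1

theorem sg_mul_self (b : Bool) : sg b * sg b = 1 := by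
  cases b <;> simp [sg]

theorem abs_sg (b : Bool) : |sg b| = 1 := by
  cases b <;> simp [sg]

theorem sg_inj {b c : Bool} (h : sg b = sg c) : b = c := by
  cases b <;> cases c <;> simp [sg] at h ⊢ <;> norm_num at h

theorem sg_ne_zero (b : Bool) : sg b ≠ 0 := by
  cases b <;> simp [sg]

section

variable {V : Type} [NormedAddCommGroup V] [InnerProductSpace ℝ V] [FiniteDimensional ℝ V]

theorem rho_sg (b : Bool) (a : V) : rho (sg b • a) = rho a := by
  cases b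
  · simp [sg, rho_neg]
  · simp [sg]

theorem rho_perp {a c : V} (ha : ‖a‖ = 1) (h : ⟪a, c⟫ = 0) : rho a c = -c := by
  rw [rho_apply ha, h]; simp

theorem rho_basis {ι : Type} [Fintype ι] (b : OrthonormalBasis ι ℝ V) (i j : ι) :
    ∃ e : ℝ, e * e = 1 ∧ rho (b i) (b j) = e • b j := by
  classical
  by_cases h : i = j
  · subst h
    exact ⟨1, by norm_num, by rw [rho_self (b.orthonormal.1 i), one_smul]⟩
  · refine ⟨-1, by norm_num, ?_⟩
    rw [rho_perp (b.orthonormal.1 i) (b.orthonormal.2 h)]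
    simp

end

/-- inner products of pure tensors -/
theorem inner_smul_tmul {V : Type} [NormedAddCommGroup V] [InnerProductSpace ℝ V]
    (r : ℝ) (a c : V) : (inner ℝ (a ⊗ₜ[ℝ] a) (r • (c ⊗ₜ[ℝ] c)) : ℝ) =
      r * ((inner ℝ a c : ℝ) * (inner ℝ a c : ℝ)) :=
  (real_inner_smul_right (a ⊗ₜ[ℝ] a) (c ⊗ₜ[ℝ] c) r).trans (by rw [TensorProduct.inner_tmul])

/-- the sixteen points -/
noncomputable def pts (b : OrthonormalBasis (Fin 4) ℝ ℍ) (k : Fin 4 × Bool × Bool) :
    WithLp 2 (ℂ × (ℍ ⊗[ℝ] ℍ)) :=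
  WithLp.toLp 2 (sg k.2.1 • (1 : ℂ), sg k.2.2 • (b k.1 ⊗ₜ[ℝ] b k.1))

theorem pts_injective (b : OrthonormalBasis (Fin 4) ℝ ℍ) : Function.Injective (pts b) := by
  classical
  rintro ⟨i, s, t⟩ ⟨j, s', t'⟩ h
  have h1 : sg s • (1 : ℂ) = sg s' • (1 : ℂ) := congrArg WithLp.fst h
  have h2 : sg t • (b i ⊗ₜ[ℝ] b i) = sg t' • (b j ⊗ₜ[ℝ] b j) := congrArg WithLp.snd h
  have h3 : s = s' := by
    apply sg_inj
    have := congrArg Complex.re h1
    simpa using this
  have h4 := congrArg (fun T => (inner ℝ (b i ⊗ₜ[ℝ] b i) T : ℝ)) h2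
  have h4' : sg t * ((inner ℝ (b i) (b i) : ℝ) * (inner ℝ (b i) (b i) : ℝ)) =
      sg t' * ((inner ℝ (b i) (b j) : ℝ) * (inner ℝ (b i) (b j) : ℝ)) :=
    (inner_smul_tmul (sg t) (b i) (b i)).symm.trans (h4.trans (inner_smul_tmul (sg t') (b i) (b j)))
  clear h4
  rename _ => h4
  have h5 : (inner ℝ (b i) (b i) : ℝ) = 1 := by
    rw [real_inner_self_eq_norm_sq, b.orthonormal.1 i]; norm_num
  rw [h5] at h4
  by_cases hij : i = j
  · subst hij
    rw [h5] at h4
    have h6 : t = t' := by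
      apply sg_inj
      simpa using h4
    rw [h3, h6]
  · exfalso
    have h6 : (inner ℝ (b i) (b j) : ℝ) = 0 := b.orthonormal.2 hij
    rw [h6] at h4
    simp at h4
    exact sg_ne_zero t h4

theorem good_S : Good (sphere (0 : ℍ) 1) rho :=
  good_sphere (by rw [Quaternion.rank_eq_four]; norm_num)

theorem good_C : Good (sphere (0 : ℂ) 1) rho :=
  good_sphere (by rw [Complex.rank_real_complex]; norm_num)

theorem good_SS : Good (Seg ℍ (sphere (0 : ℍ) 1)) (segSym (sphere (0 : ℍ) 1) rho) :=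
  good_seg (by rw [Quaternion.rank_eq_four]; norm_num) good_S

theorem good_CSS : Good (Seg ℂ (Seg ℍ (sphere (0 : ℍ) 1)))
    (segSym (Seg ℍ (sphere (0 : ℍ) 1)) (segSym (sphere (0 : ℍ) 1) rho)) :=
  good_seg (by rw [Complex.rank_real_complex]; norm_num) good_SS

/-- the first symmetric space: `S¹ × (S³ × S³)/±1`. -/
noncomputable def spaceOne : SymSpace (WithLp 2 (ℂ × (ℍ ⊗[ℝ] ℍ))) :=
  (good_C.toPre.prod good_SS.toPre).toSym

/-- the second symmetric space: `(S¹ × S³ × S³)/C`, the pure tensors `u ⊗ (x ⊗ y)`. -/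
noncomputable def spaceTwo : SymSpace (ℂ ⊗[ℝ] (ℍ ⊗[ℝ] ℍ)) := good_CSS.toPre.toSym

theorem pts_antipodal (b : OrthonormalBasis (Fin 4) ℝ ℍ) :
    spaceOne.IsAntipodal (Set.range (pts b)) := by
  have hb : ∀ i, ‖b i‖ = 1 := b.orthonormal.1
  have e : ∀ (i : Fin 4) (t : Bool), sg t • (b i ⊗ₜ[ℝ] b i) = (sg t • b i) ⊗ₜ[ℝ] b i := by
    intro i t
    rw [TensorProduct.smul_tmul']
  have hn : ∀ (i : Fin 4) (t : Bool), ‖sg t • b i‖ = 1 := by
    intro i t
    rw [norm_smul, Real.norm_eq_abs, abs_sg, hb, one_mul]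
  constructor
  · rintro _ ⟨⟨i, s, t⟩, rfl⟩
    refine ⟨?_, ?_⟩
    · show sg s • (1 : ℂ) ∈ sphere (0 : ℂ) 1
      rw [mem_sphere_zero_iff_norm, norm_smul, Real.norm_eq_abs, abs_sg, norm_one, one_mul]
    · show sg t • (b i ⊗ₜ[ℝ] b i) ∈ Seg ℍ (sphere (0 : ℍ) 1)
      rw [e]
      exact ⟨sg t • b i, b i, mem_sphere_zero_iff_norm.2 (hb i), hn i t, rfl⟩
  · rintro _ ⟨⟨i, s, t⟩, rfl⟩ _ ⟨⟨j, s', t'⟩, rfl⟩
    show LinearIsometryEquiv.withLpProdCongr 2 (rho (sg s • (1 : ℂ)))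
      (segSym (sphere (0 : ℍ) 1) rho (sg t • (b i ⊗ₜ[ℝ] b i))) (pts b (j, s', t')) = _
    rw [e i t, segSym_tmul good_S (hn i t) (mem_sphere_zero_iff_norm.2 (hb i)), rho_sg, rho_sg]
    apply (WithLp.equiv 2 (ℂ × (ℍ ⊗[ℝ] ℍ))).injective
    refine Prod.ext ?_ ?_
    · show rho (1 : ℂ) (sg s' • (1 : ℂ)) = sg s' • (1 : ℂ)
      rw [map_smul, rho_self norm_one]
    · show TensorProduct.congrIsometry (rho (b i)) (rho (b i)) (sg t' • (b j ⊗ₜ[ℝ] b j)) =
        sg t' • (b j ⊗ₜ[ℝ] b j)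
      obtain ⟨c, hc, hcb⟩ := rho_basis b i j
      rw [map_smul, TensorProduct.congrIsometry_apply, TensorProduct.congr_tmul]
      show sg t' • (rho (b i) (b j) ⊗ₜ[ℝ] rho (b i) (b j)) = _
      rw [hcb, TensorProduct.smul_tmul_smul, hc, one_smul]

theorem sixteen_le : 16 ≤ spaceOne.twoNumber := by
  have h4 : Module.finrank ℝ ℍ = 4 := Quaternion.finrank_eq_four
  let b : OrthonormalBasis (Fin 4) ℝ ℍ := (stdOrthonormalBasis ℝ ℍ).reindex (finCongr h4)
  have h1 : (Set.range (pts b)).encard = 16 := by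
    rw [← Set.image_univ, (pts_injective b).encard_image, Set.encard_univ,
      ENat.card_eq_coe_fintype_card]
    simp
  calc (16 : ℕ∞) = (Set.range (pts b)).encard := h1.symm
    _ ≤ spaceOne.twoNumber :=
      le_iSup (fun A : {A // spaceOne.IsAntipodal A} => A.1.encard)
        ⟨Set.range (pts b), pts_antipodal b⟩

end Pool.Agent.N538.TwoNum
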