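import Pool.Agent.N538.TwoNum.Good

/-! Products, and the symmetric space attached to a building block. -/

set_option autoImplicit false
set_option linter.unusedSectionVars false
set_option linter.unusedSimpArgs false

open Topology Metric
open scoped TensorProduct RealInnerProductSpace

namespace Pool.Agent.N538.TwoNum

/-- auxiliary predicate: a homogeneous symmetric compact subset of a Euclidean space. -/
structure Pre {E : Type} [NormedAddCommGroup E] [InnerProductSpace ℝ E]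
    (M : Set E) (s : E → (E ≃ₗᵢ[ℝ] E)) : Prop where
  compact : IsCompact M
  conn : IsConnected M
  hom : ∀ p ∈ M, ∀ q ∈ M, ∃ f : E ≃ₗᵢ[ℝ] E, f '' M = M ∧ f p = q
  image : ∀ p ∈ M, s p '' M = M
  self : ∀ p ∈ M, s p p = p
  bound : ∃ C : ℝ, 0 ≤ C ∧ ∀ p ∈ M, ∀ q ∈ M, ‖s p q + q - (2 : ℝ) • p‖ ≤ C * ‖q - p‖ ^ 2

section

variable {E : Type} [NormedAddCommGroup E] [InnerProductSpace ℝ E]

theorem Good.toPre {M : Set E} {s : E → (E ≃ₗᵢ[ℝ] E)} (h : Good M s) : Pre M s :=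
  ⟨h.compact, h.conn, h.hom, h.image, h.self, h.bound⟩

theorem tangent_of_bound (s : E ≃ₗᵢ[ℝ] E) (p v : E) (C : ℝ) (γ : ℝ → E)
    (hb : ∀ t, ‖s (γ t) + γ t - (2 : ℝ) • p‖ ≤ C * ‖γ t - p‖ ^ 2) (h0 : γ 0 = p)
    (hγ : HasDerivAt γ v 0) : s v = -v := by
  have h1 : HasDerivAt (fun t => s (γ t) + γ t - (2 : ℝ) • p) (s v + v) 0 := by
    have h2 : HasDerivAt (fun t => s (γ t)) (s v) 0 :=
      (s.toContinuousLinearEquiv.toContinuousLinearMap.hasFDerivAt.comp_hasDerivAt 0 hγ)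
    exact (h2.add hγ).sub_const _
  have h2 : HasDerivAt (fun t => s (γ t) + γ t - (2 : ℝ) • p) 0 0 := by
    rw [hasDerivAt_iff_isLittleO]
    have h3 : s (γ 0) + γ 0 - (2 : ℝ) • p = 0 := by
      have := hb 0
      rw [h0, sub_self, norm_zero] at this
      have h4 : ‖s p + p - (2 : ℝ) • p‖ ≤ 0 := by simpa using this
      rw [h0]
      exact norm_le_zero_iff.1 h4
    have h4 : (fun t : ℝ => γ t - γ 0) =O[𝓝 0] fun t : ℝ => t - 0 := hγ.isBigO_sub
    have h5 : (fun t : ℝ => ‖γ t - γ 0‖ ^ 2) =O[𝓝 0] fun t : ℝ => (t - 0) ^ 2 :=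
      (h4.norm_left).pow 2
    have h6 : (fun t : ℝ => (t - 0) ^ 2) =o[𝓝 0] fun t : ℝ => t - 0 := by
      simp only [sub_zero]
      exact Asymptotics.isLittleO_pow_id one_lt_two
    have h7 : (fun t : ℝ => s (γ t) + γ t - (2 : ℝ) • p) =O[𝓝 0] fun t : ℝ => ‖γ t - γ 0‖ ^ 2 := by
      refine Asymptotics.IsBigO.of_bound C (Filter.Eventually.of_forall fun t => ?_)
      have := hb t
      rw [h0, Real.norm_of_nonneg (sq_nonneg _)]
      exact this
    have h8 := (h7.trans h5).trans_isLittleO h6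
    refine h8.congr (fun t => ?_) (fun t => rfl)
    rw [h3]
    simp
  have h3 := h1.unique h2
  exact eq_neg_of_add_eq_zero_left h3

/-- the symmetric space attached to a `Pre` structure -/
noncomputable def Pre.toSym {M : Set E} {s : E → (E ≃ₗᵢ[ℝ] E)} (h : Pre M s) : SymSpace E where
  carrier := M
  isCompact := h.compact
  isConnected := h.conn
  homogeneous := h.hom
  sym := s
  sym_image := h.image
  sym_self := h.self
  sym_tangent := by
    obtain ⟨C, -, hb⟩ := h.bound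
    intro p hp γ v hγ h0 hv
    exact tangent_of_bound (s p) p v C γ (fun t => hb p hp _ (hγ t)) h0 hv

end

section prod

variable {E F : Type} [NormedAddCommGroup E] [InnerProductSpace ℝ E]
  [NormedAddCommGroup F] [InnerProductSpace ℝ F]

/-- the product of two sets in the orthogonal sum -/
def prodSet (M : Set E) (N : Set F) : Set (WithLp 2 (E × F)) := {z | z.fst ∈ M ∧ z.snd ∈ N}

/-- the product symmetries -/
noncomputable def prodSym (s : E → (E ≃ₗᵢ[ℝ] E)) (t : F → (F ≃ₗᵢ[ℝ] F)) (z : WithLp 2 (E × F)) :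
    WithLp 2 (E × F) ≃ₗᵢ[ℝ] WithLp 2 (E × F) :=
  LinearIsometryEquiv.withLpProdCongr 2 (s z.fst) (t z.snd)

theorem prodSet_eq_image (M : Set E) (N : Set F) :
    prodSet M N = (fun x : E × F => WithLp.toLp 2 x) '' (M ×ˢ N) := by
  ext z
  constructor
  · rintro ⟨h1, h2⟩
    exact ⟨(z.fst, z.snd), ⟨h1, h2⟩, rfl⟩
  · rintro ⟨⟨a, b⟩, ⟨h1, h2⟩, rfl⟩
    exact ⟨h1, h2⟩

theorem prodCongr_image {M : Set E} {N : Set F} {f : E ≃ₗᵢ[ℝ] E} {g : F ≃ₗᵢ[ℝ] F}
    (hf : f '' M = M) (hg : g '' N = N) :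
    LinearIsometryEquiv.withLpProdCongr 2 f g '' prodSet M N = prodSet M N := by
  ext z
  constructor
  · rintro ⟨w, ⟨h1, h2⟩, rfl⟩
    refine ⟨?_, ?_⟩
    · show f w.fst ∈ M
      rw [← hf]; exact ⟨_, h1, rfl⟩
    · show g w.snd ∈ N
      rw [← hg]; exact ⟨_, h2, rfl⟩
  · rintro ⟨h1, h2⟩
    rw [← hf] at h1
    rw [← hg] at h2
    obtain ⟨a, ha, ha'⟩ := h1
    obtain ⟨b, hb, hb'⟩ := h2
    refine ⟨WithLp.toLp 2 (a, b), ⟨ha, hb⟩, ?_⟩
    apply (WithLp.equiv 2 (E × F)).injective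
    exact Prod.ext ha' hb'

theorem norm_le_add (z : WithLp 2 (E × F)) : ‖z‖ ≤ ‖z.fst‖ + ‖z.snd‖ := by
  rw [WithLp.prod_norm_eq_of_L2]
  rw [Real.sqrt_le_left (by positivity)]
  nlinarith [norm_nonneg z.fst, norm_nonneg z.snd]

theorem fst_sq_le (z : WithLp 2 (E × F)) : ‖z.fst‖ ^ 2 ≤ ‖z‖ ^ 2 := by
  rw [WithLp.prod_norm_sq_eq_of_L2]
  nlinarith [sq_nonneg ‖z.snd‖]

theorem snd_sq_le (z : WithLp 2 (E × F)) : ‖z.snd‖ ^ 2 ≤ ‖z‖ ^ 2 := by
  rw [WithLp.prod_norm_sq_eq_of_L2]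
  nlinarith [sq_nonneg ‖z.fst‖]

theorem Pre.prod {M : Set E} {N : Set F} {s : E → (E ≃ₗᵢ[ℝ] E)} {t : F → (F ≃ₗᵢ[ℝ] F)}
    (hM : Pre M s) (hN : Pre N t) : Pre (prodSet M N) (prodSym s t) where
  compact := by
    rw [prodSet_eq_image]
    exact (hM.compact.prod hN.compact).image (WithLp.prod_continuous_toLp 2 E F)
  conn := by
    rw [prodSet_eq_image]
    exact (hM.conn.prod hN.conn).image _ (WithLp.prod_continuous_toLp 2 E F).continuousOn
  hom := by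
    rintro p ⟨h1, h2⟩ q ⟨h3, h4⟩
    obtain ⟨f, hf, hfp⟩ := hM.hom _ h1 _ h3
    obtain ⟨g, hg, hgp⟩ := hN.hom _ h2 _ h4
    refine ⟨LinearIsometryEquiv.withLpProdCongr 2 f g, prodCongr_image hf hg, ?_⟩
    apply (WithLp.equiv 2 (E × F)).injective
    exact Prod.ext hfp hgp
  image := by
    rintro p ⟨h1, h2⟩
    exact prodCongr_image (hM.image _ h1) (hN.image _ h2)
  self := by
    rintro p ⟨h1, h2⟩
    apply (WithLp.equiv 2 (E × F)).injective
    exact Prod.ext (hM.self _ h1) (hN.self _ h2)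
  bound := by
    obtain ⟨C, hC, hb⟩ := hM.bound
    obtain ⟨D, hD, hd⟩ := hN.bound
    refine ⟨C + D, by positivity, ?_⟩
    rintro p ⟨h1, h2⟩ q ⟨h3, h4⟩
    have h5 := hb _ h1 _ h3
    have h6 := hd _ h2 _ h4
    have h7 := norm_le_add (prodSym s t p q + q - (2 : ℝ) • p)
    have h8 : (prodSym s t p q + q - (2 : ℝ) • p).fst = s p.fst q.fst + q.fst - (2 : ℝ) • p.fst :=
      rfl
    have h9 : (prodSym s t p q + q - (2 : ℝ) • p).snd = t p.snd q.snd + q.snd - (2 : ℝ) • p.snd :=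
      rfl
    rw [h8, h9] at h7
    have h10 : ‖q.fst - p.fst‖ ^ 2 ≤ ‖q - p‖ ^ 2 := fst_sq_le (q - p)
    have h11 : ‖q.snd - p.snd‖ ^ 2 ≤ ‖q - p‖ ^ 2 := snd_sq_le (q - p)
    nlinarith [mul_le_mul_of_nonneg_left h10 hC, mul_le_mul_of_nonneg_left h11 hD]

end prod

end Pool.Agent.N538.TwoNum
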