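import Pool.Agent.N538.TwoNum.Comb

/-! The two-number of the set of pure tensors `u ⊗ (x ⊗ y)` is at most eight. -/

set_option autoImplicit false
set_option linter.unusedSectionVars false
set_option linter.unusedSimpArgs false

open Topology Metric
open scoped TensorProduct RealInnerProductSpace Quaternion

namespace Pool.Agent.N538.TwoNum

variable {U X Y : Type} [NormedAddCommGroup U] [InnerProductSpace ℝ U] [FiniteDimensional ℝ U]
  [NormedAddCommGroup X] [InnerProductSpace ℝ X] [FiniteDimensional ℝ X]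
  [NormedAddCommGroup Y] [InnerProductSpace ℝ Y] [FiniteDimensional ℝ Y]

/-- if `s_T(T') = T'` and `T' ≠ ± T` then the factors satisfy `Rel`. -/
theorem rel_of_fixed {u u' : U} {x x' : X} {y y' : Y} (hu : ‖u‖ = 1) (hu' : ‖u'‖ = 1)
    (hx : ‖x‖ = 1) (hx' : ‖x'‖ = 1) (hy : ‖y‖ = 1) (hy' : ‖y'‖ = 1)
    (h : rho u u' ⊗ₜ[ℝ] (rho x x' ⊗ₜ[ℝ] rho y y') = u' ⊗ₜ[ℝ] (x' ⊗ₜ[ℝ] y'))
    (hne : u' ⊗ₜ[ℝ] (x' ⊗ₜ[ℝ] y') ≠ u ⊗ₜ[ℝ] (x ⊗ₜ[ℝ] y))
    (hne' : u' ⊗ₜ[ℝ] (x' ⊗ₜ[ℝ] y') ≠ -(u ⊗ₜ[ℝ] (x ⊗ₜ[ℝ] y))) : Rel u u' x x' y y' := by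
  have nu : ‖rho u u'‖ = 1 := by rw [LinearIsometryEquiv.norm_map]; exact hu'
  have nx : ‖rho x x'‖ = 1 := by rw [LinearIsometryEquiv.norm_map]; exact hx'
  have ny : ‖rho y y'‖ = 1 := by rw [LinearIsometryEquiv.norm_map]; exact hy'
  have nxy : ‖x' ⊗ₜ[ℝ] y'‖ = 1 := by rw [TensorProduct.norm_tmul, hx', hy', one_mul]
  have nrxy : ‖rho x x' ⊗ₜ[ℝ] rho y y'‖ = 1 := by rw [TensorProduct.norm_tmul, nx, ny, one_mul]
  rcases tmul_eq nu hu' nrxy nxy h with ⟨h1, h2⟩ | ⟨h1, h2⟩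
  · -- `u'` parallel
    have pu := par_of_rho hu hu' h1.symm
    rcases tmul_eq nx hx' ny hy' h2.symm with ⟨h3, h4⟩ | ⟨h3, h4⟩
    · exfalso
      have px := par_of_rho hx hx' h3.symm
      have py := par_of_rho hy hy' h4.symm
      rcases pu with rfl | rfl <;> rcases px with rfl | rfl <;> rcases py with rfl | rfl <;>
        simp [TensorProduct.neg_tmul, TensorProduct.tmul_neg] at hne hne'
    · left
      exact ⟨pu, perp_of_rho hx (neg_eq_iff_eq_neg.2 h3).symm,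
        perp_of_rho hy (neg_eq_iff_eq_neg.2 h4).symm⟩
  · right
    have pu : ⟪u, u'⟫ = 0 := perp_of_rho hu (neg_eq_iff_eq_neg.2 h1).symm
    have h2' : rho x x' ⊗ₜ[ℝ] rho y y' = (-x') ⊗ₜ[ℝ] y' := by
      rw [TensorProduct.neg_tmul, h2, neg_neg]
    rcases tmul_eq nx (by rw [norm_neg]; exact hx') ny hy' h2' with ⟨h3, h4⟩ | ⟨h3, h4⟩
    · left
      exact ⟨pu, perp_of_rho hx h3.symm, par_of_rho hy hy' h4.symm⟩
    · right
      exact ⟨pu, par_of_rho hx hx' (by rw [neg_inj] at h3; exact h3.symm),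
        perp_of_rho hy (neg_eq_iff_eq_neg.2 h4).symm⟩

theorem encard_le_eight (hU : Module.finrank ℝ U = 2) (hX : Module.finrank ℝ X = 4)
    (hY : 1 < Module.rank ℝ Y) (A : Set (U ⊗[ℝ] (X ⊗[ℝ] Y)))
    (hA : A ⊆ Seg U (Seg X (sphere (0 : Y) 1)))
    (hfix : ∀ p ∈ A, ∀ q ∈ A, segSym (Seg X (sphere (0 : Y) 1))
      (segSym (sphere (0 : Y) 1) rho) p q = q) : A.encard ≤ 8 := by
  classical
  by_contra hcon
  rw [not_le] at hcon
  have h9 : (9 : ℕ∞) ≤ A.encard := by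
    have h8 := Order.add_one_le_of_lt hcon
    have e9 : (8 : ℕ∞) + 1 = 9 := by norm_num
    rwa [e9] at h8
  obtain ⟨t, htA, ht⟩ := Set.exists_subset_encard_eq h9
  have htf : t.Finite := Set.finite_of_encard_eq_coe (k := 9) ht
  obtain ⟨s, rfl⟩ : ∃ s : Finset (U ⊗[ℝ] (X ⊗[ℝ] Y)), (s : Set _) = t := ⟨htf.toFinset, by simp⟩
  have hs : s.card = 9 := by
    rw [Set.encard_coe_eq_coe_finsetCard] at ht
    exact_mod_cast ht
  let π : U ⊗[ℝ] (X ⊗[ℝ] Y) → Set (U ⊗[ℝ] (X ⊗[ℝ] Y)) := fun T => {T, -T}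
  have hπ : ∀ T T', π T = π T' → T = T' ∨ T = -T' := by
    intro T T' h
    have : T ∈ π T' := by rw [← h]; exact Or.inl rfl
    exact this
  have hcard : s.card ≤ 2 * (s.image π).card := by
    apply Finset.card_le_mul_card_image
    intro b hb
    obtain ⟨T, hT, rfl⟩ := Finset.mem_image.1 hb
    have : s.filter (fun x => π x = π T) ⊆ {T, -T} := by
      intro x hx
      rw [Finset.mem_filter] at hx
      rw [Finset.mem_insert, Finset.mem_singleton]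
      exact hπ _ _ hx.2
    exact (Finset.card_le_card this).trans Finset.card_le_two
  have h5 : Fintype.card (Fin 5) ≤ Fintype.card (s.image π) := by
    rw [Fintype.card_fin, Fintype.card_coe]; omega
  obtain ⟨e⟩ := Function.Embedding.nonempty_of_card_le h5
  have hrep : ∀ i : Fin 5, ∃ T ∈ s, π T = (e i : Set _) := by
    intro i
    obtain ⟨T, hT, h⟩ := Finset.mem_image.1 (e i).2
    exact ⟨T, hT, h⟩
  choose T hTs hTe using hrep
  have hTmem : ∀ i, ∃ (a : U) (b : X) (c : Y), ‖a‖ = 1 ∧ ‖b‖ = 1 ∧ ‖c‖ = 1 ∧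
      a ⊗ₜ[ℝ] (b ⊗ₜ[ℝ] c) = T i := by
    intro i
    obtain ⟨a, m, ⟨b, c, hc, hb, rfl⟩, ha, h⟩ := hA (htA (Finset.mem_coe.2 (hTs i)))
    exact ⟨a, b, c, ha, hb, mem_sphere_zero_iff_norm.1 hc, h⟩
  choose u x y hu hx hy hT using hTmem
  refine no_five (u := u) (x := x) (y := y) hU hX hu hx hy ?_
  intro i j hij
  have hne : π (T j) ≠ π (T i) := by
    rw [hTe, hTe]
    intro h
    exact hij (e.injective (Subtype.ext h.symm))
  have hfx := hfix _ (htA (Finset.mem_coe.2 (hTs i))) _ (htA (Finset.mem_coe.2 (hTs j)))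
  rw [← hT i, ← hT j] at hfx
  have hG := good_seg (V := X) (E := Y) (by
    rw [← Module.finrank_eq_rank, hX]; norm_num) (good_sphere hY)
  have hmi : x i ⊗ₜ[ℝ] y i ∈ Seg X (sphere (0 : Y) 1) :=
    ⟨x i, y i, mem_sphere_zero_iff_norm.2 (hy i), hx i, rfl⟩
  rw [segSym_tmul hG (hu i) hmi,
    segSym_tmul (good_sphere hY) (hx i) (mem_sphere_zero_iff_norm.2 (hy i))] at hfx
  refine rel_of_fixed (hu i) (hu j) (hx i) (hx j) (hy i) (hy j) (by simpa using hfx) ?_ ?_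
  · intro h
    apply hne
    rw [← hT i, ← hT j, h]
  · intro h
    apply hne
    rw [← hT i, ← hT j, h]
    show ({_, _} : Set _) = {_, _}
    rw [neg_neg, Set.pair_comm]

end Pool.Agent.N538.TwoNum
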